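import Pool.Agent.H43.KS.Stm

/-!
# SOFTI: interpolation of the singular potential between the mass and the supremum
-/

set_option autoImplicit false

open MeasureTheory Metric Set Filter Topology
open scoped ENNReal

namespace Pool.Agent.H134.KS

open Pool.Agent.H821.BZ Pool.Agent.H43.KS

/-- the singular part of the kernel in the unit ball -/
noncomputable def ph {d : ℕ} (γ : ℝ) (z : V d) : ℝ :=
  (ball (0 : V d) 1).indicator (fun z => ‖z‖ ^ γ) z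

theorem ph_nonneg {d : ℕ} (γ : ℝ) (z : V d) : 0 ≤ ph γ z :=
  indicator_nonneg (fun _ _ => Real.rpow_nonneg (norm_nonneg _) _) z

theorem ph_int {d : ℕ} (hd : 2 ≤ d) {γ : ℝ} (hγ : -(d : ℝ) < γ) : Integrable (ph (d := d) γ) := by
  have hf : Module.finrank ℝ (V d) = d := finrank_euclideanSpace_fin
  change Integrable ((ball (0 : V d) 1).indicator (fun z => ‖z‖ ^ γ))
  rw [integrable_indicator_iff measurableSet_ball]
  refine integrableOn_ball_of_norm_le_rpow (C := 1) (α := -γ) ?_ ?_ ?_ ?_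
  · rw [hf]
    omega
  · rw [hf]
    linarith
  · refine Filter.Eventually.of_forall fun x => ?_
    rw [neg_neg, one_mul, Real.norm_eq_abs, abs_of_nonneg (Real.rpow_nonneg (norm_nonneg _) _)]
  · exact (measurable_norm.pow_const γ).aestronglyMeasurable

theorem ph_scale_int {d : ℕ} (hd : 2 ≤ d) {γ δ : ℝ} (hγ : -(d : ℝ) < γ) (hδ : 0 < δ) (v : V d) :
    Integrable (fun w : V d => ph γ (δ⁻¹ • (v - w))) ∧
      ∫ w : V d, ph γ (δ⁻¹ • (v - w)) = δ ^ d * ∫ z : V d, ph γ z := by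
  have h1 : Integrable (fun z : V d => ph γ (δ⁻¹ • z)) :=
    (ph_int hd hγ).comp_smul (inv_ne_zero hδ.ne')
  refine ⟨h1.comp_sub_left v, ?_⟩
  rw [integral_sub_left_eq_self (fun z : V d => ph γ (δ⁻¹ • z)) volume v,
    Measure.integral_comp_smul, finrank_euclideanSpace_fin, inv_pow, inv_inv,
    abs_of_pos (pow_pos hδ d), smul_eq_mul]

theorem ph_scale {d : ℕ} {γ δ : ℝ} (hδ : 0 < δ) (z : V d) (hz : ‖z‖ < δ) :
    δ ^ γ * ph γ (δ⁻¹ • z) = ‖z‖ ^ γ := by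
  have h1 : ‖δ⁻¹ • z‖ = δ⁻¹ * ‖z‖ := by
    rw [norm_smul, Real.norm_eq_abs, abs_of_pos (inv_pos.2 hδ)]
  have h2 : δ⁻¹ • z ∈ ball (0 : V d) 1 := by
    rw [mem_ball_zero_iff, h1, inv_mul_lt_iff₀ hδ, mul_one]
    exact hz
  unfold ph
  rw [indicator_of_mem h2, h1, Real.mul_rpow (inv_pos.2 hδ).le (norm_nonneg _),
    Real.inv_rpow hδ.le, ← mul_assoc, mul_inv_cancel₀ (Real.rpow_pos_of_pos hδ γ).ne', one_mul]

/-- the pointwise bound -/
theorem pt {d : ℕ} {γ δ F a : ℝ} (hγ : γ < 0) (hδ : 0 < δ) (v w : V d) (ha : 0 ≤ a)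
    (haF : a ≤ F) :
    a * ‖w - v‖ ^ γ ≤ F * δ ^ γ * ph γ (δ⁻¹ • (v - w)) + δ ^ γ * a := by
  have hδγ : 0 ≤ δ ^ γ := Real.rpow_nonneg hδ.le γ
  have hph := ph_nonneg γ (δ⁻¹ • (v - w))
  have hF : 0 ≤ F := ha.trans haF
  rw [norm_sub_rev w v]
  rcases lt_or_ge ‖v - w‖ δ with h | h
  · have h1 := ph_scale (γ := γ) hδ (v - w) h
    have h2 : 0 ≤ ‖v - w‖ ^ γ := Real.rpow_nonneg (norm_nonneg _) γ
    have h3 : a * ‖v - w‖ ^ γ ≤ F * ‖v - w‖ ^ γ := mul_le_mul_of_nonneg_right haF h2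
    have h4 : 0 ≤ δ ^ γ * a := mul_nonneg hδγ ha
    have h5 : F * ‖v - w‖ ^ γ = F * δ ^ γ * ph γ (δ⁻¹ • (v - w)) := by
      rw [← h1]
      ring
    linarith
  · have h1 : ‖v - w‖ ^ γ ≤ δ ^ γ := Real.rpow_le_rpow_of_nonpos hδ h hγ.le
    have h2 : a * ‖v - w‖ ^ γ ≤ a * δ ^ γ := mul_le_mul_of_nonneg_left h1 ha
    have h3 : 0 ≤ F * δ ^ γ * ph γ (δ⁻¹ • (v - w)) := mul_nonneg (mul_nonneg hF hδγ) hph
    linarith

/-- the choice of the radius -/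
theorem scale_eq {d : ℕ} (hd : 2 ≤ d) {γ r F : ℝ} (hr : 0 < r) (hF : 0 < F) :
    ((r / F) ^ (1 / (d : ℝ))) ^ d = r / F ∧
      ((r / F) ^ (1 / (d : ℝ))) ^ γ * r = r ^ (1 + γ / d) * F ^ (-γ / d) := by
  have hd0 : (d : ℝ) ≠ 0 := by
    have : 0 < d := by omega
    exact_mod_cast this.ne'
  have hq : 0 < r / F := div_pos hr hF
  constructor
  · rw [← Real.rpow_natCast, ← Real.rpow_mul hq.le, one_div, inv_mul_cancel₀ hd0, Real.rpow_one]
  · rw [← Real.rpow_mul hq.le, Real.div_rpow hr.le hF.le, Real.rpow_add hr, Real.rpow_one]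
    have h1 : 1 / (d : ℝ) * γ = γ / d := by ring
    have h2 : -γ / (d : ℝ) = -(γ / d) := by ring
    rw [h1, h2, Real.rpow_neg hF.le]
    ring

theorem SOFTI : S_SOFTI := by
  intro d hd γ hγ1 hγ2
  have hc : 0 ≤ ∫ z : V d, ph γ z := integral_nonneg fun z => ph_nonneg γ z
  refine ⟨(∫ z : V d, ph γ z) + 1, by linarith, ?_⟩
  intro f hfm hf0 hfi r F hr hF hfr hfF v
  obtain ⟨h1, h2⟩ := scale_eq (d := d) (γ := γ) hd hr hF
  obtain ⟨δ, hδe⟩ : ∃ δ, δ = (r / F) ^ (1 / (d : ℝ)) := ⟨_, rfl⟩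
  rw [← hδe] at h1 h2
  have hδ : 0 < δ := by
    rw [hδe]
    exact Real.rpow_pos_of_pos (div_pos hr hF) _
  have hδγ : 0 ≤ δ ^ γ := Real.rpow_nonneg hδ.le γ
  obtain ⟨h3, h4⟩ := ph_scale_int hd hγ1 hδ v
  have hint : Integrable (fun w : V d => F * δ ^ γ * ph γ (δ⁻¹ • (v - w)) + δ ^ γ * f w) :=
    (h3.const_mul (F * δ ^ γ)).add (hfi.const_mul (δ ^ γ))
  have hval : ∫ w : V d, (F * δ ^ γ * ph γ (δ⁻¹ • (v - w)) + δ ^ γ * f w) =
      F * δ ^ γ * (δ ^ d * ∫ z : V d, ph γ z) + δ ^ γ * ∫ w, f w := by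
    rw [integral_add (h3.const_mul (F * δ ^ γ)) (hfi.const_mul (δ ^ γ)), integral_const_mul,
      integral_const_mul, h4]
  have hnn : ∀ w : V d, 0 ≤ F * δ ^ γ * ph γ (δ⁻¹ • (v - w)) + δ ^ γ * f w := fun w =>
    add_nonneg (mul_nonneg (mul_nonneg hF.le hδγ) (ph_nonneg _ _)) (mul_nonneg hδγ (hf0 w))
  calc ∫⁻ w : V d, ENNReal.ofReal (f w * ‖w - v‖ ^ γ)
      ≤ ∫⁻ w : V d, ENNReal.ofReal (F * δ ^ γ * ph γ (δ⁻¹ • (v - w)) + δ ^ γ * f w) :=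
        lintegral_mono fun w => ENNReal.ofReal_le_ofReal (pt hγ2 hδ v w (hf0 w) (hfF w))
    _ = ENNReal.ofReal (∫ w : V d, (F * δ ^ γ * ph γ (δ⁻¹ • (v - w)) + δ ^ γ * f w)) :=
        (ofReal_integral_eq_lintegral_ofReal hint (ae_of_all _ hnn)).symm
    _ ≤ ENNReal.ofReal (((∫ z : V d, ph γ z) + 1) * (r ^ (1 + γ / d) * F ^ (-γ / d))) := by
        refine ENNReal.ofReal_le_ofReal ?_
        rw [hval, ← h2, h1]
        have h5 : F * δ ^ γ * (r / F * ∫ z : V d, ph γ z) = δ ^ γ * r * ∫ z : V d, ph γ z := by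
          field_simp
        rw [h5]
        have h6 : δ ^ γ * ∫ w, f w ≤ δ ^ γ * r := mul_le_mul_of_nonneg_left hfr hδγ
        linarith

end Pool.Agent.H134.KS
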